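import Pool.Agent.H759R3.TensorDefs

/-!
For every field, condition (b) fails for tensor restriction, so conditions (a) and (b) never hold
together: the negative answer to Q1 of `MP_176834_co`, for all fields at once.
-/

set_option autoImplicit false

universe u

namespace Pool.Agent.Results.MP_176834_co.ConditionBFails

open Pool.Agent.H759R3.Tensor

/-- For every field `F`, condition (b) fails for the restriction preorder on 3-tensors over `F`;
in particular (a) and (b) do not both hold. -/
theorem result (F : Type u) [Field F] : ¬ CondB F ∧ ¬ (CondA F ∧ CondB F) := by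
  have key : ¬ CondB F := by
    rintro ⟨c, b, s, t, hs, hst, hc, hf⟩
    obtain ⟨f, hfs, hfc, -⟩ := hf s le_rfl hst.le
    have hq : ∀ n : ℕ, (2 : ℚ) ≤ 3 - 1 / (n + 1) := by
      intro n
      have h1 : (1 : ℚ) / (n + 1) ≤ 1 := by
        rw [div_le_one (by positivity)]
        have : (0 : ℚ) ≤ n := Nat.cast_nonneg n
        linarith
      linarith
    have hlt : ∀ n : ℕ, (3 - 1 / ((n : ℚ) + 1)) < 3 - 1 / (((n + 1 : ℕ) : ℚ) + 1) := by
      intro n
      have h1 : (1 : ℚ) / (((n + 1 : ℕ) : ℚ) + 1) < 1 / ((n : ℚ) + 1) := by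
        apply one_div_lt_one_div_of_lt
        · positivity
        · push_cast
          linarith
      linarith
    have hle3 : ∀ n : ℕ, (3 - 1 / ((n : ℚ) + 1)) ≤ 3 := by
      intro n
      have h1 : (0 : ℚ) ≤ 1 / ((n : ℚ) + 1) := by positivity
      linarith
    refine no_bounded_chain (fun n : ℕ => c (3 - 1 / ((n : ℚ) + 1))) (c 3)
      (fun n => hc _ _ (hq n) (hlt n).le) (fun n hn => ?_) (fun n => hc _ _ (hq n) (hle3 n))
    have h1 := hfs.mono _ _ hn
    rw [hfc _ (hq n), hfc _ (hq (n + 1))] at h1
    have h2 : (3 - 1 / (((n + 1 : ℕ) : ℚ) + 1) : ℚ) ≤ 3 - 1 / ((n : ℚ) + 1) := by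
      exact_mod_cast h1
    exact absurd h2 (not_le.2 (hlt n))
  exact ⟨key, fun h => key h.2⟩

end Pool.Agent.Results.MP_176834_co.ConditionBFails
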