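import Pool.Agent.H759R3.TensorDefs

/-!
For every field, the restriction preorder on 3-tensors is not countably universal: the negative
answer to Q2 of `MP_176834_co`, for all fields at once.  Already the countable linear order
`ω + 1` does not order-embed.
-/

set_option autoImplicit false

universe u

namespace Pool.Agent.Results.MP_176834_co.NotUniversal

open Pool.Agent.H759R3.Tensor

/-- For every field `F`, the order `ω + 1` does not order-embed into the restriction preorder on
3-tensors over `F`, so this preorder is not countably universal. -/
theorem result (F : Type u) [Field F] :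
    (¬ ∃ φ : WithTop ℕ → T3 F, ∀ x y : WithTop ℕ, x ≤ y ↔ Restricts (φ x) (φ y)) ∧
    ¬ CountablyUniversal F := by
  have key : ¬ ∃ φ : WithTop ℕ → T3 F, ∀ x y : WithTop ℕ, x ≤ y ↔ Restricts (φ x) (φ y) := by
    rintro ⟨φ, hφ⟩
    refine no_bounded_chain (fun n : ℕ => φ (n : WithTop ℕ)) (φ ⊤) (fun n => ?_) (fun n => ?_)
      (fun n => ?_)
    · rw [← hφ]
      exact_mod_cast Nat.le_succ n
    · rw [← hφ]
      intro h
      have : n + 1 ≤ n := by exact_mod_cast h
      omega
    · rw [← hφ]
      exact le_top
  refine ⟨key, fun h => key ?_⟩
  haveI : Countable (WithTop ℕ) := inferInstanceAs (Countable (Option ℕ))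
  exact h (WithTop ℕ)

end Pool.Agent.Results.MP_176834_co.NotUniversal
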